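import Pool.Agent.Lib.MP_07903c_al.Final

/-!
# MP_07903c_al, Q2: every one-relator group is hyperlinear

The alphabet `Λ` is arbitrary (a group with finitely many generators is the case `Λ = Fin m`) and
the relator `r` is an arbitrary element of the free group on `Λ` (proper powers are allowed).
-/

namespace Pool.Agent.Results.MP_07903c_al.OneRelatorHyperlinear

/-- the normalised trace of a `k × k` matrix -/
noncomputable def ntr {k : ℕ} (a : Matrix (Fin k) (Fin k) ℂ) : ℂ := a.trace / k

/-- the normalised 2-norm of a `k × k` matrix: the square root of the normalised trace of `a* a` -/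
noncomputable def norm2 {k : ℕ} (a : Matrix (Fin k) (Fin k) ℂ) : ℝ :=
  Real.sqrt ((ntr (a.conjTranspose * a)).re)

/-- hyperlinearity of a group: for every finite set `F` of elements and every `ε > 0` there is a map
to some unitary group `U(k)` (`k` positive) which is multiplicative on `F` up to `ε` in the 2-norm
and whose values at the nontrivial elements of `F` have normalised trace smaller than `ε` -/
def IsHyperlinear (Γ : Type) [Group Γ] : Prop :=
  ∀ (F : Finset Γ) (ε : ℝ), 0 < ε → ∃ (k : ℕ) (Φ : Γ → Matrix.unitaryGroup (Fin k) ℂ), 0 < k ∧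
    (∀ g ∈ F, ∀ h ∈ F,
      norm2 ((Φ (g * h) : Matrix (Fin k) (Fin k) ℂ) -
        (Φ g : Matrix (Fin k) (Fin k) ℂ) * (Φ h : Matrix (Fin k) (Fin k) ℂ)) < ε) ∧
    ∀ g ∈ F, g ≠ 1 → ‖ntr (Φ g : Matrix (Fin k) (Fin k) ℂ)‖ < ε

/-- every one-relator group is hyperlinear -/
theorem result {Λ : Type} (r : FreeGroup Λ) :
    IsHyperlinear (PresentedGroup ({r} : Set (FreeGroup Λ))) := by
  intro F ε hε
  exact Pool07903c.hyperlinear_oneRel r F ε hε

end Pool.Agent.Results.MP_07903c_al.OneRelatorHyperlinear
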