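import Pool.Agent.Lib.MP_07903c_al.Final

/-!
# MP_07903c_al, Q1: every one-relator group is sofic

The alphabet `Λ` is arbitrary (a group with finitely many generators is the case `Λ = Fin m`) and
the relator `r` is an arbitrary element of the free group on `Λ` (proper powers are allowed).
-/

namespace Pool.Agent.Results.MP_07903c_al.OneRelatorSofic

/-- the normalised Hamming distance of two permutations of an `n`-element set -/
noncomputable def dH {n : ℕ} (σ τ : Equiv.Perm (Fin n)) : ℝ :=
  ((Finset.univ.filter (fun i => σ i ≠ τ i)).card : ℝ) / n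

/-- soficity of a group: for every finite set `F` of elements and every `ε > 0` there is a map to
some symmetric group `S_n` (`n` positive) which is multiplicative on `F` up to `ε` and moves almost
all points for each nontrivial element of `F` -/
def IsSofic (Γ : Type) [Group Γ] : Prop :=
  ∀ (F : Finset Γ) (ε : ℝ), 0 < ε → ∃ (n : ℕ) (σ : Γ → Equiv.Perm (Fin n)), 0 < n ∧
    (∀ g ∈ F, ∀ h ∈ F, dH (σ (g * h)) (σ g * σ h) < ε) ∧
    ∀ g ∈ F, g ≠ 1 → 1 - ε < dH (σ g) 1

/-- every one-relator group is sofic -/
theorem result {Λ : Type} (r : FreeGroup Λ) :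
    IsSofic (PresentedGroup ({r} : Set (FreeGroup Λ))) := by
  intro F ε hε
  exact Pool07903c.sofic_oneRel r F ε hε

end Pool.Agent.Results.MP_07903c_al.OneRelatorSofic
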